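import Pool.Agent.MP_3a00c0_gt.Defs

/-!
Closed Riemannian manifolds, quasi-positive curvature, orbits of the isometry group and totally
geodesic maps.  Metrics, their coefficients in a chart (coef), geodesics, Christoffel symbols,
the curvature tensor and isometries come from the imported files.
-/

open scoped Manifold ContDiff

namespace Pool.Agent.MP_e2979e_gt

open Pool.Agent.MP_3fed84_gt Pool.Agent.MP_3a00c0_gt

/-- Euclidean n-space, the model space of n-manifolds. -/
abbrev Euc (n : ℕ) : Type := EuclideanSpace ℝ (Fin n)

/-- A closed connected smooth n-manifold with a smooth Riemannian metric. -/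
structure ClosedRiem (n : ℕ) where
  M : Type
  [top : TopologicalSpace M]
  [chart : ChartedSpace (Euc n) M]
  [mfd : IsManifold 𝓘(ℝ, Euc n) ∞ M]
  [t2 : T2Space M]
  [cpt : CompactSpace M]
  [conn : ConnectedSpace M]
  g : RiemMetric (Euc n) M

attribute [instance] ClosedRiem.top ClosedRiem.chart ClosedRiem.mfd ClosedRiem.t2 ClosedRiem.cpt
  ClosedRiem.conn

variable {n k : ℕ}

/-- All sectional curvatures at p are positive: g(R(a, b) b, a) > 0 for linearly independent
a, b, computed in the chart at p. -/
def ClosedRiem.PositiveAt (X : ClosedRiem n) (p : X.M) : Prop :=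
  ∀ Γ : Euc n → Euc n → Euc n → Euc n, IsChristoffel (coef X.g p) Γ (chartAt (Euc n) p).target →
    ∀ a b : Euc n, LinearIndependent ℝ ![a, b] →
      0 < coef X.g p (chartAt (Euc n) p p) (riemann Γ (chartAt (Euc n) p p) a b b) a

/-- Quasi-positive curvature: nonnegative everywhere and positive at some point. -/
def ClosedRiem.QuasiPositive (X : ClosedRiem n) : Prop :=
  NonnegCurvature X.g ∧ ∃ p, X.PositiveAt p

/-- The orbit of x under the isometry group. -/
def ClosedRiem.orbit (X : ClosedRiem n) (x : X.M) : Set X.M :=
  {y | ∃ φ : Diffeo (Euc n) X.M X.M, IsIsometry X.g φ ∧ φ x = y}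

/-- The orbit space of the isometry group, as the set of orbits. -/
def ClosedRiem.Orbits (X : ClosedRiem n) : Type := Set.range X.orbit

/-- f is smooth, injective and sends geodesics to geodesics.  Every isometric embedding onto a
totally geodesic submanifold has these properties. -/
def GeodesicInjection (X : ClosedRiem n) (Y : ClosedRiem k) (f : X.M → Y.M) : Prop :=
  ContMDiff 𝓘(ℝ, Euc n) 𝓘(ℝ, Euc k) ∞ f ∧ Function.Injective f ∧
    ∀ γ : ℝ → X.M, IsGeodesic X.g γ → IsGeodesic Y.g (f ∘ γ)

end Pool.Agent.MP_e2979e_gt
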