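import Pool.Agent.MP_3a00c0_gt.Curv

/-! The Fubini-Study metric in an affine chart. -/

set_option maxSynthPendingDepth 3
set_option linter.unusedSectionVars false

open Set Metric Filter Topology
open scoped ContDiff RealInnerProductSpace

namespace Pool.Agent.MP_e2979e_gt

open Pool.Agent.MP_3fed84_gt Pool.Agent.MP_3a00c0_gt

variable {E : Type} [NormedAddCommGroup E] [InnerProductSpace ℝ E] [FiniteDimensional ℝ E]

/-- An orthogonal complex structure. -/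
structure IsCx (J : E →L[ℝ] E) : Prop where
  skew : ∀ a b, ⟪a, J b⟫ = -⟪J a, b⟫
  sq : ∀ a, J (J a) = -a

/-- The inner product as a bilinear form. -/
noncomputable def innB (E : Type) [NormedAddCommGroup E] [InnerProductSpace ℝ E] :
    E →L[ℝ] E →L[ℝ] ℝ := innerSL ℝ

theorem innB_apply (a b : E) : innB E a b = ⟪a, b⟫ := rfl

/-- The coefficients of the Fubini-Study metric. -/
noncomputable def fsG (J : E →L[ℝ] E) (y : E) : E →L[ℝ] E →L[ℝ] ℝ :=
  (1 + ⟪y, y⟫)⁻¹ • innB E - ((1 + ⟪y, y⟫)⁻¹ ^ 2) •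
    ((innB E y).smulRight (innB E y) + (innB E (J y)).smulRight (innB E (J y)))

/-- Half of the Christoffel symbols. -/
noncomputable def fsT (J : E →L[ℝ] E) (y : E) : E →L[ℝ] E →L[ℝ] E :=
  (innB E y).smulRight (ContinuousLinearMap.id ℝ E) + (innB E (J y)).smulRight J

/-- The Christoffel symbols of the Fubini-Study metric. -/
noncomputable def fsΓ (J : E →L[ℝ] E) (y : E) : E →L[ℝ] E →L[ℝ] E :=
  (-(1 + ⟪y, y⟫)⁻¹) • (fsT J y + (fsT J y).flip)

variable {J : E →L[ℝ] E}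

theorem fsG_apply (y a b : E) : fsG J y a b = (1 + ⟪y, y⟫)⁻¹ * ⟪a, b⟫
    - (1 + ⟪y, y⟫)⁻¹ ^ 2 * (⟪y, a⟫ * ⟪y, b⟫ + ⟪J y, a⟫ * ⟪J y, b⟫) := by
  simp [fsG, innB_apply, mul_add]

theorem fsΓ_apply (y a b : E) : fsΓ J y a b = (-(1 + ⟪y, y⟫)⁻¹) •
    (⟪y, a⟫ • b + ⟪J y, a⟫ • J b + (⟪y, b⟫ • a + ⟪J y, b⟫ • J a)) := by
  simp [fsΓ, fsT, innB_apply]

theorem fs_pos (y : E) : 0 < 1 + ⟪y, y⟫ := by
  linarith [real_inner_self_nonneg (x := y)]

theorem fs_sm_inv : ContDiff ℝ ∞ fun y : E => (1 + ⟪y, y⟫)⁻¹ :=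
  (contDiff_const.add (contDiff_id.inner ℝ contDiff_id)).inv fun y => (fs_pos y).ne'

theorem fs_sm_inner (L : E →L[ℝ] E) (a : E) : ContDiff ℝ ∞ fun y : E => ⟪L y, a⟫ :=
  L.contDiff.inner ℝ contDiff_const

theorem fsG_smooth : ContDiff ℝ ∞ (fsG J) := by
  refine contDiff_clm_apply_iff.2 fun a => contDiff_clm_apply_iff.2 fun b => ?_
  simp only [fsG_apply]
  have h1 := fs_sm_inner (ContinuousLinearMap.id ℝ E)
  have h2 := fs_sm_inner J
  exact (fs_sm_inv.mul contDiff_const).sub ((fs_sm_inv.pow 2).mul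
    (((h1 a).mul (h1 b)).add ((h2 a).mul (h2 b))))

theorem fsΓ_smooth : ContDiff ℝ ∞ (fsΓ J) := by
  refine contDiff_clm_apply_iff.2 fun a => contDiff_clm_apply_iff.2 fun b => ?_
  simp only [fsΓ_apply]
  have h1 := fs_sm_inner (ContinuousLinearMap.id ℝ E)
  have h2 := fs_sm_inner J
  exact fs_sm_inv.neg.smul ((((h1 a).smul contDiff_const).add ((h2 a).smul contDiff_const)).add
    (((h1 b).smul contDiff_const).add ((h2 b).smul contDiff_const)))

theorem IsCx.self (h : IsCx J) (a : E) : ⟪J a, a⟫ = 0 := by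
  have h1 := h.skew a a
  rw [real_inner_comm] at h1
  linarith

theorem IsCx.swap (h : IsCx J) (a b : E) : ⟪J b, a⟫ = -⟪J a, b⟫ := by
  rw [real_inner_comm, h.skew]

theorem IsCx.iso (h : IsCx J) (a b : E) : ⟪J a, J b⟫ = ⟪a, b⟫ := by
  rw [h.skew, h.sq, inner_neg_left, neg_neg]

theorem IsCx.bessel (h : IsCx J) (y a : E) : ⟪y, a⟫ ^ 2 + ⟪J y, a⟫ ^ 2 ≤ ⟪y, y⟫ * ⟪a, a⟫ := by
  have h1 := real_inner_mul_inner_self_le (⟪y, a⟫ • y + ⟪J y, a⟫ • J y) a
  have h2 : ⟪y, J y⟫ = 0 := by rw [real_inner_comm, h.self]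
  simp only [inner_add_left, inner_add_right, real_inner_smul_left, real_inner_smul_right,
    h.self, h2, h.iso] at h1
  set s := ⟪y, a⟫ ^ 2 + ⟪J y, a⟫ ^ 2 with hs
  have h3 : s * s ≤ s * (⟪y, y⟫ * ⟪a, a⟫) := by
    rw [hs]
    nlinarith
  rcases (show 0 ≤ s by positivity).eq_or_lt with h4 | h4
  · rw [← h4]
    exact mul_nonneg real_inner_self_nonneg real_inner_self_nonneg
  · exact le_of_mul_le_mul_left h3 h4

theorem fs_line (y a : E) : HasDerivAt (fun s : ℝ => y + s • a) a 0 := by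
  simpa using ((hasDerivAt_id (0 : ℝ)).smul_const a).const_add y

theorem fs_line_inner (L : E →L[ℝ] E) (y a w : E) :
    HasDerivAt (fun s : ℝ => ⟪L (y + s • a), w⟫) ⟪L a, w⟫ 0 := by
  simpa using (L.hasFDerivAt.comp_hasDerivAt (0 : ℝ) (fs_line y a)).inner ℝ
    (hasDerivAt_const (0 : ℝ) w)

theorem fs_line_inv (y a : E) : HasDerivAt (fun s : ℝ => (1 + ⟪y + s • a, y + s • a⟫)⁻¹)
    (-(2 * ⟪y, a⟫) * (1 + ⟪y, y⟫)⁻¹ ^ 2) 0 := by
  have h1 := (((fs_line y a).inner ℝ (fs_line y a)).const_add 1).inv (fs_pos _).ne'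
  refine h1.congr_deriv ?_
  simp only [zero_smul, add_zero, real_inner_comm y a]
  field_simp
  ring

theorem fs_fderiv {Y : Type} [NormedAddCommGroup Y] [NormedSpace ℝ Y]
    {F : E → E →L[ℝ] E →L[ℝ] Y} (hF : ContDiff ℝ ∞ F) (y a b c : E) :
    HasDerivAt (fun s : ℝ => F (y + s • a) b c) (fderiv ℝ F y a b c) 0 := by
  have h1 : HasFDerivAt F (fderiv ℝ F y) (y + (0 : ℝ) • a) := by
    rw [zero_smul, add_zero]
    exact cda_hasF hF.contDiffAt
  exact (curv_apply_two h1 b c).comp_hasDerivAt (0 : ℝ) (fs_line y a)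

theorem fs_chr (h : IsCx J) : Chr univ (fsG J) (fsΓ J) := by
  refine ⟨isOpen_univ, fsG_smooth.contDiffOn, fsΓ_smooth.contDiffOn, fun y _ a b => ?_,
    fun y _ a ha => ?_, fun y _ a b => ?_, fun y _ a b c => ?_⟩
  · rw [fsG_apply, fsG_apply, real_inner_comm a b]
    ring
  · rw [fsG_apply]
    have h1 := h.bessel y a
    have h2 := fs_pos y
    have h3 : 0 < ⟪a, a⟫ := real_inner_self_pos.2 ha
    have e : (1 + ⟪y, y⟫)⁻¹ * ⟪a, a⟫ - (1 + ⟪y, y⟫)⁻¹ ^ 2 * (⟪y, a⟫ * ⟪y, a⟫ + ⟪J y, a⟫ * ⟪J y, a⟫)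
        = (1 + ⟪y, y⟫)⁻¹ ^ 2 * ((1 + ⟪y, y⟫) * ⟪a, a⟫ - (⟪y, a⟫ ^ 2 + ⟪J y, a⟫ ^ 2)) := by
      field_simp
    rw [e]
    exact mul_pos (by positivity) (by nlinarith)
  · rw [fsΓ_apply, fsΓ_apply, add_comm (⟪y, a⟫ • b + ⟪J y, a⟫ • J b)]
  · have h1 := fs_fderiv (fsG_smooth (J := J)) y a b c
    simp only [fsG_apply] at h1
    have i1 := fs_line_inner (ContinuousLinearMap.id ℝ E) y a
    have i2 := fs_line_inner J y a
    have h2 := ((fs_line_inv y a).mul_const ⟪b, c⟫).fun_sub (((fs_line_inv y a).fun_pow 2).fun_mul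
      (((i1 b).fun_mul (i1 c)).fun_add ((i2 b).fun_mul (i2 c))))
    rw [h1.unique h2]
    simp only [fsG_apply, fsΓ_apply, inner_add_left, inner_add_right, real_inner_smul_left,
      real_inner_smul_right, h.skew, h.sq, inner_neg_left, ContinuousLinearMap.id_apply,
      zero_smul, add_zero, real_inner_comm a b, h.swap a b]
    generalize (1 + ⟪y, y⟫)⁻¹ = ι
    push_cast
    ring

theorem fsG_zero (a b : E) : fsG J 0 a b = ⟪a, b⟫ := by
  simp [fsG_apply]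

theorem fs_dΓ (a b c : E) : fderiv ℝ (fsΓ J) 0 a b c
    = -(⟪a, b⟫ • c + ⟪J a, b⟫ • J c + (⟪a, c⟫ • b + ⟪J a, c⟫ • J b)) := by
  have h1 := fs_fderiv (fsΓ_smooth (J := J)) 0 a b c
  simp only [fsΓ_apply] at h1
  have i1 := fs_line_inner (ContinuousLinearMap.id ℝ E) 0 a
  have i2 := fs_line_inner J 0 a
  have h2 := (fs_line_inv 0 a).neg.smul ((((i1 b).smul_const c).add ((i2 b).smul_const (J c))).add
    (((i1 c).smul_const b).add ((i2 c).smul_const (J b))))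
  rw [h1.unique h2]
  simp
  abel

theorem fs_curv (h : IsCx J) (a b : E) : ⟪Rm (fsΓ J) 0 a b b, a⟫
    = ⟪a, a⟫ * ⟪b, b⟫ - ⟪a, b⟫ ^ 2 + 3 * ⟪J a, b⟫ ^ 2 := by
  have h0 : ∀ u w, fsΓ J 0 u w = 0 := fun u w => by simp [fsΓ_apply]
  rw [rm_apply, fs_dΓ, fs_dΓ, h0, h0]
  simp only [inner_add_left, inner_sub_left, inner_neg_left, real_inner_smul_left, h.self,
    real_inner_comm a b, h.swap a b, inner_zero_left]
  ring

theorem fs_curv_nonneg (h : IsCx J) (a b : E) : 0 ≤ ⟪Rm (fsΓ J) 0 a b b, a⟫ := by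
  rw [fs_curv h]
  have := real_inner_mul_inner_self_le a b
  nlinarith [sq_nonneg ⟪J a, b⟫]

theorem fs_curv_pos (h : IsCx J) {a b : E} (hab : LinearIndependent ℝ ![a, b]) :
    0 < ⟪Rm (fsΓ J) 0 a b b, a⟫ := by
  rw [fs_curv h]
  rw [LinearIndependent.pair_iff] at hab
  have ha : a ≠ 0 := fun h0 => by simpa using (hab 1 0 (by simp [h0])).1
  have h1 : ⟪a, b⟫ • a - ⟪a, a⟫ • b ≠ 0 := fun h0 => by
    have := (hab ⟪a, b⟫ (-⟪a, a⟫) (by rw [neg_smul, ← sub_eq_add_neg]; exact h0)).2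
    exact (real_inner_self_pos.2 ha).ne' (neg_eq_zero.1 this)
  have h2 := real_inner_self_pos.2 h1
  have h3 := real_inner_self_pos.2 ha
  simp only [inner_sub_left, inner_sub_right, real_inner_smul_left, real_inner_smul_right,
    real_inner_comm a b] at h2
  have h4 : 0 < ⟪a, a⟫ * (⟪a, a⟫ * ⟪b, b⟫ - ⟪a, b⟫ ^ 2) := by nlinarith
  have h5 := (mul_pos_iff_of_pos_left h3).1 h4
  nlinarith [sq_nonneg ⟪J a, b⟫]

theorem fs_geo (h : IsCx J) {a : E} (ha : ⟪a, a⟫ = 1) :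
    CGeo (fsΓ J) (fun s => Real.tan s • a) (fun s => (1 + Real.tan s ^ 2) • a) 0 := by
  have hc : ∀ᶠ s in 𝓝 (0 : ℝ), Real.cos s ≠ 0 :=
    Real.continuous_cos.continuousAt.eventually_ne (by simp)
  filter_upwards [hc] with s hs
  have h1 : HasDerivAt Real.tan (1 + Real.tan s ^ 2) s := by
    refine (Real.hasDerivAt_tan hs).congr_deriv ?_
    rw [← Real.inv_one_add_tan_sq hs, one_div, inv_inv]
  refine ⟨h1.smul_const a, (((h1.pow 2).const_add 1).smul_const a).congr_deriv ?_⟩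
  have h2 : 0 < 1 + Real.tan s ^ 2 := by positivity
  simp only [fsΓ_apply, map_smul, real_inner_smul_left, real_inner_smul_right, ha, h.self,
    smul_apply, mul_zero, zero_smul, add_zero, mul_one, smul_smul, ← add_smul, ← neg_smul]
  congr 1
  rw [← sq]
  field_simp
  ring

end Pool.Agent.MP_e2979e_gt
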