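import Pool.Agent.MP_e2979e_gt.FS

/-! Affine charts of complex projective space, as maps between vector spaces. -/

set_option maxSynthPendingDepth 3
set_option linter.unusedSectionVars false

open Set Metric Filter Topology
open scoped ContDiff RealInnerProductSpace ComplexConjugate

namespace Pool.Agent.MP_e2979e_gt

open Pool.Agent.MP_3fed84_gt Pool.Agent.MP_3a00c0_gt

/-- A real isometric identification of E with the complex orthogonal complement of x. -/
structure Frame (E V : Type) [NormedAddCommGroup E] [InnerProductSpace ℝ E]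
    [NormedAddCommGroup V] [InnerProductSpace ℂ V] (x : V) where
  i : E →L[ℝ] V
  P : V →L[ℝ] E
  unit : inner ℂ x x = 1
  orth : ∀ a, inner ℂ x (i a) = 0
  iP : ∀ v, i (P v) = v - inner ℂ x v • x
  re : ∀ a b, (inner ℂ (i a) (i b)).re = ⟪a, b⟫

variable {E : Type} [NormedAddCommGroup E] [InnerProductSpace ℝ E] [FiniteDimensional ℝ E]
  {V : Type} [NormedAddCommGroup V] [InnerProductSpace ℂ V] {x x' : V}

/-- The Hermitian Fubini-Study form on the cone. -/
noncomputable def hFS (z v w : V) : ℂ :=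
  (inner ℂ v w * inner ℂ z z - inner ℂ v z * inner ℂ z w) / (inner ℂ z z) ^ 2

theorem hFS_smul {z : V} (hz : z ≠ 0) {c : ℂ} (hc : c ≠ 0) (v w : V) (α β : ℂ) :
    hFS (c • z) (c • v + α • z) (c • w + β • z) = hFS z v w := by
  have h1 : inner ℂ z z ≠ 0 := inner_self_ne_zero.2 hz
  have h2 : conj c ≠ 0 := (map_ne_zero _).2 hc
  simp only [hFS, inner_add_left, inner_add_right, inner_smul_left, inner_smul_right]
  field_simp
  ring

theorem hFS_map (U : V ≃ₗᵢ[ℂ] V) (z v w : V) : hFS (U z) (U v) (U w) = hFS z v w := by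
  simp only [hFS, U.inner_map_map]

namespace Frame

variable (F : Frame E V x)

theorem i_inj {a : E} (h : F.i a = 0) : a = 0 := by
  have h1 := F.re a a
  rw [h, inner_zero_left, Complex.zero_re] at h1
  exact inner_self_eq_zero.1 h1.symm

theorem ext_i {a b : E} (h : F.i a = F.i b) : a = b :=
  sub_eq_zero.1 (F.i_inj (by rw [map_sub, h, sub_self]))

theorem iP_orth {v : V} (h : inner ℂ x v = 0) : F.i (F.P v) = v := by
  rw [F.iP, h, zero_smul, sub_zero]

theorem Pi (a : E) : F.P (F.i a) = a := F.ext_i (F.iP_orth (F.orth a))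

theorem P_smul (c : ℂ) : F.P (c • x) = 0 :=
  F.i_inj (by rw [F.iP, inner_smul_right, F.unit, mul_one, sub_self])

include F in
theorem ne_zero : x ≠ 0 := fun h => by
  have := F.unit
  rw [h, inner_zero_left] at this
  exact zero_ne_one this

/-- The complex structure transported to E. -/
noncomputable def J : E →L[ℝ] E := F.P.comp (Complex.I • F.i)

theorem iJ (a : E) : F.i (F.J a) = Complex.I • F.i a :=
  F.iP_orth (v := Complex.I • F.i a) (by rw [inner_smul_right, F.orth, mul_zero])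

theorem im (a b : E) : (inner ℂ (F.i a) (F.i b)).im = ⟪F.J a, b⟫ := by
  rw [← F.re, F.iJ, inner_smul_left]
  simp

theorem isCx : IsCx F.J := by
  refine ⟨fun a b => ?_, fun a => F.ext_i ?_⟩
  · rw [← F.im, ← F.re, F.iJ, inner_smul_right]
    simp
  · rw [F.iJ, F.iJ, smul_smul, Complex.I_mul_I, map_neg, neg_smul, one_smul]

theorem inner_i (a b : E) : inner ℂ (F.i a) (F.i b) = (⟪a, b⟫ : ℝ) + (⟪F.J a, b⟫ : ℝ) * Complex.I := by
  rw [← F.re, ← F.im, Complex.re_add_im]

theorem inner_up (y : E) : inner ℂ x (x + F.i y) = 1 := by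
  rw [inner_add_right, F.unit, F.orth, add_zero]

theorem up_ne (y : E) : x + F.i y ≠ 0 := fun h => by
  have := F.inner_up y
  rw [h, inner_zero_right] at this
  exact zero_ne_one this

theorem fs_eq (y a b : E) : fsG F.J y a b = (hFS (x + F.i y) (F.i a) (F.i b)).re := by
  have h0 : ∀ a, inner ℂ (F.i a) x = 0 := fun a => by
    rw [← inner_conj_symm, F.orth, map_zero]
  have h1 : hFS (x + F.i y) (F.i a) (F.i b) = ((⟪a, b⟫ + ⟪F.J a, b⟫ * Complex.I) * (1 + ⟪y, y⟫)
      - (⟪y, a⟫ - ⟪F.J y, a⟫ * Complex.I) * (⟪y, b⟫ + ⟪F.J y, b⟫ * Complex.I))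
      * (((1 + ⟪y, y⟫)⁻¹ ^ 2 : ℝ) : ℂ) := by
    simp only [hFS, inner_add_left, inner_add_right, F.unit, F.orth, h0, F.inner_i,
      F.isCx.self, real_inner_comm y a, F.isCx.swap y a]
    push_cast
    rw [div_eq_mul_inv, inv_pow]
    congr 1
    · ring
    · congr 1
      ring
  rw [h1, Complex.re_mul_ofReal, fsG_apply]
  have h2 := (fs_pos y).ne'
  simp only [Complex.sub_re, Complex.mul_re, Complex.add_re, Complex.ofReal_re, Complex.ofReal_im,
    Complex.I_re, Complex.I_im, Complex.add_im, Complex.mul_im, Complex.sub_im, Complex.one_re,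
    Complex.one_im]
  field_simp
  ring

/-- The affine chart on the cone. -/
noncomputable def Ψ (z : V) : E := F.P ((inner ℂ x z)⁻¹ • z)

/-- Its differential. -/
noncomputable def D (z v : V) : E :=
  F.P ((inner ℂ x z)⁻¹ • v + (-((inner ℂ x z)⁻¹ ^ 2 * inner ℂ x v)) • z)

theorem up_Ψ {z : V} (hz : inner ℂ x z ≠ 0) : x + F.i (F.Ψ z) = (inner ℂ x z)⁻¹ • z := by
  rw [Ψ, F.iP, inner_smul_right, inv_mul_cancel₀ hz, one_smul, add_sub_cancel]

theorem Ψ_up (y : E) : F.Ψ (x + F.i y) = y := by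
  have h := F.P_smul 1
  rw [one_smul] at h
  rw [Ψ, F.inner_up, inv_one, one_smul, map_add, h, F.Pi, zero_add]

theorem Ψ_smul {c : ℂ} (hc : c ≠ 0) (z : V) : F.Ψ (c • z) = F.Ψ z := by
  rw [Ψ, Ψ, inner_smul_right, smul_smul, mul_inv, mul_comm c⁻¹, mul_assoc, inv_mul_cancel₀ hc,
    mul_one]

theorem i_D {z : V} (hz : inner ℂ x z ≠ 0) (v : V) :
    F.i (F.D z v) = (inner ℂ x z)⁻¹ • v + (-((inner ℂ x z)⁻¹ ^ 2 * inner ℂ x v)) • z := by
  refine F.iP_orth ?_
  rw [inner_add_right, inner_smul_right, inner_smul_right]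
  field_simp
  ring

theorem key {z : V} (hz : inner ℂ x z ≠ 0) (v w : V) :
    fsG F.J (F.Ψ z) (F.D z v) (F.D z w) = (hFS z v w).re := by
  have h0 : z ≠ 0 := fun h => hz (by rw [h, inner_zero_right])
  rw [F.fs_eq, F.up_Ψ hz, F.i_D hz, F.i_D hz, hFS_smul h0 (inv_ne_zero hz)]

theorem Ψ_smooth {z : V} (hz : inner ℂ x z ≠ 0) : ContDiffAt ℝ ∞ F.Ψ z := by
  have h1 : ContDiffAt ℂ ∞ (fun z : V => (inner ℂ x z)⁻¹ • z) z :=
    ((innerSL ℂ x).contDiff.contDiffAt.inv hz).smul contDiffAt_id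
  exact F.P.contDiff.contDiffAt.comp z (h1.restrict_scalars ℝ)

theorem Ψ_fderiv {z : V} (hz : inner ℂ x z ≠ 0) (v : V) : fderiv ℝ F.Ψ z v = F.D z v := by
  have h1 := (((hasDerivAt_inv hz).comp_hasFDerivAt z (innerSL ℂ x).hasFDerivAt).smul
    (hasFDerivAt_id z)).restrictScalars ℝ
  have h2 := F.P.hasFDerivAt.comp z h1
  have h3 : HasFDerivAt F.Ψ _ z := h2
  rw [h3.fderiv, D]
  simp

theorem D_self (v : V) : F.D x v = F.P v := by
  rw [D, F.unit, map_add, F.P_smul, inv_one, one_smul, add_zero]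

theorem Ψ_deriv {β : ℝ → V} {v : V} {t : ℝ} (hz : inner ℂ x (β t) ≠ 0) (h : HasDerivAt β v t) :
    HasDerivAt (fun s => F.Ψ (β s)) (F.D (β t) v) t := by
  rw [← F.Ψ_fderiv hz]
  exact (cda_hasF (F.Ψ_smooth hz)).comp_hasDerivAt t h

/-- Transition maps and unitary maps are isometries in the affine charts. -/
theorem trans (F' : Frame E V x') (U : V ≃ₗᵢ[ℂ] V) {y : E}
    (hy : inner ℂ x' (U (x + F.i y)) ≠ 0) :
    ContDiffAt ℝ ∞ (fun y => F'.Ψ (U (x + F.i y))) y ∧
      IsoAt (fsG F.J) (fsG F'.J) (fun y => F'.Ψ (U (x + F.i y))) y := by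
  let U' : V →L[ℝ] V := (U.toContinuousLinearEquiv : V →L[ℂ] V).restrictScalars ℝ
  have h1 : ContDiff ℝ ∞ fun y => U (x + F.i y) :=
    U'.contDiff.comp (contDiff_const.add F.i.contDiff)
  have h2 : HasFDerivAt (fun y => U (x + F.i y)) (U'.comp F.i) y :=
    U'.hasFDerivAt.comp y (F.i.hasFDerivAt.const_add x)
  refine ⟨ContDiffAt.comp (g := F'.Ψ) y (F'.Ψ_smooth hy) h1.contDiffAt, fun a b => ?_⟩
  have h3 : HasFDerivAt (fun y => F'.Ψ (U (x + F.i y))) _ y :=
    HasFDerivAt.comp (g := F'.Ψ) y (cda_hasF (F'.Ψ_smooth hy)) h2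
  rw [h3.fderiv]
  simp only [ContinuousLinearMap.comp_apply, F'.Ψ_fderiv hy]
  rw [F'.key hy, F.fs_eq, ← hFS_map U (x + F.i y)]
  rfl

end Frame

variable [FiniteDimensional ℂ V]

theorem exists_frame (hd : Module.finrank ℝ E + 2 = 2 * Module.finrank ℂ V) {x : V}
    (hx : inner ℂ x x = 1) : Nonempty (Frame E V x) := by
  have hx0 : x ≠ 0 := fun h => by
    rw [h, inner_zero_left] at hx
    exact zero_ne_one hx
  let K : Submodule ℂ V := (ℂ ∙ x)ᗮ
  have h1 : Module.finrank ℂ K + 1 = Module.finrank ℂ V := by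
    have := (ℂ ∙ x).finrank_add_finrank_orthogonal
    rw [finrank_span_singleton hx0, add_comm] at this
    exact this
  have h2 : Module.finrank ℝ E = Module.finrank ℝ K := by
    rw [finrank_real_of_complex]
    omega
  obtain ⟨e⟩ := FiniteDimensional.nonempty_continuousLinearEquiv_of_finrank_eq h2
  let j : E →L[ℝ] V := (K.subtypeL.restrictScalars ℝ).comp (e : E →L[ℝ] K)
  let B₀ : E →ₗ[ℝ] E →ₗ[ℝ] ℝ := LinearMap.mk₂ ℝ (fun a b => (inner ℂ (j a) (j b)).re)
    (fun a a' b => by rw [map_add, inner_add_left, Complex.add_re])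
    (fun r a b => by
      rw [map_smul, ← Complex.coe_smul, inner_smul_left, Complex.conj_ofReal,
        Complex.re_ofReal_mul, smul_eq_mul])
    (fun a b b' => by rw [map_add, inner_add_right, Complex.add_re])
    (fun r a b => by
      rw [map_smul, ← Complex.coe_smul, inner_smul_right, Complex.re_ofReal_mul, smul_eq_mul])
  let B : E →L[ℝ] E →L[ℝ] ℝ := LinearMap.toContinuousLinearMap
    ((LinearMap.toContinuousLinearMap (𝕜 := ℝ) (E := E) (F' := ℝ)).toLinearMap.comp B₀)
  have hB : ∀ a b, B a b = (inner ℂ (j a) (j b)).re := fun a b => rfl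
  obtain ⟨N, hN⟩ := exists_normalize B
    (fun a b => by rw [hB, hB, ← inner_conj_symm, Complex.conj_re])
    (fun a ha => by
      rw [hB]
      have h3 : j a ≠ 0 := fun h0 => ha (e.injective (by
        rw [map_zero]
        exact Subtype.ext h0))
      exact (re_inner_self_pos (𝕜 := ℂ)).2 h3)
  refine ⟨⟨j.comp (N : E →L[ℝ] E), ((N.trans e).symm : K →L[ℝ] E).comp
    (K.orthogonalProjectionOnto.restrictScalars ℝ), hx, fun a => ?_, fun v => ?_, fun a b => hN a b⟩⟩
  · exact Submodule.mem_orthogonal_singleton_iff_inner_right.1 (e (N a)).2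
  · have h3 : (j.comp (N : E →L[ℝ] E)) ((N.trans e).symm (K.orthogonalProjectionOnto v))
        = K.starProjection v := by
      change ((N.trans e) ((N.trans e).symm (K.orthogonalProjectionOnto v)) : V) = _
      rw [ContinuousLinearEquiv.apply_symm_apply]
      rfl
    refine h3.trans ?_
    have h4 : ‖x‖ = 1 := by
      rw [inner_self_eq_norm_sq_to_K] at hx
      have h5 : ‖x‖ ^ 2 = 1 := Complex.ofReal_injective (by push_cast; exact hx)
      exact (pow_eq_one_iff_of_nonneg (norm_nonneg x) two_ne_zero).1 h5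
    rw [← Submodule.starProjection_unit_singleton ℂ h4]
    exact Submodule.starProjection_orthogonal_val v

theorem exists_unitary {x x' : V} (hx : inner ℂ x x = 1) (hx' : inner ℂ x' x' = 1) :
    ∃ U : V ≃ₗᵢ[ℂ] V, U x = x' := by
  have key : ∀ z : V, inner ℂ z z = 1 →
      ∃ b : OrthonormalBasis (Option (Fin (Module.finrank ℂ V - 1))) ℂ V, b none = z := by
    intro z hz
    have hz0 : z ≠ 0 := fun h => by
      rw [h, inner_zero_left] at hz
      exact zero_ne_one hz
    have h1 : 0 < Module.finrank ℂ V := Module.finrank_pos_iff_exists_ne_zero.2 ⟨z, hz0⟩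
    have h2 : Orthonormal ℂ (({none} : Set (Option (Fin (Module.finrank ℂ V - 1)))).domRestrict
        fun _ => z) := by
      rw [orthonormal_iff_ite]
      intro i j
      rw [if_pos (Subsingleton.elim i j)]
      exact hz
    obtain ⟨b, hb⟩ := h2.exists_orthonormalBasis_extension_of_card_eq (by
      simp only [Fintype.card_option, Fintype.card_fin]
      omega)
    exact ⟨b, hb none rfl⟩
  obtain ⟨b, hb⟩ := key x hx
  obtain ⟨b', hb'⟩ := key x' hx'
  refine ⟨b.repr.trans b'.repr.symm, ?_⟩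
  rw [← hb, ← hb', LinearIsometryEquiv.trans_apply, b.repr_self, b'.repr_symm_single]

end Pool.Agent.MP_e2979e_gt
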